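import Mathlib
import Pool.Agent.T2h14.UC.Ab

/-!
# Finiteness of unramified cohomology for products with abelian varieties: an explicit criterion

Let `f i` (`i` in a finite set `I`) be Weil `q`-polynomials, for instance the characteristic
polynomials of Frobenius of abelian varieties over the field with `q` elements, `E` a field of complex
numbers and `r ≥ 0`. We compare the unramified cohomology groups of `A × Z` and `Z` for

* all abelian varieties `A` over the fields with `Q = q ^ s` elements, `s > 0`, that are isogenous to
  products of powers of abelian varieties coming from the field with `q` elements with characteristic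
  polynomials `f i`, and
* all smooth projective varieties `Z` such that the eigenvalues of Frobenius on the cohomology of `Z`
  and their conjugates lie, up to powers, in a group generated by the nonzero elements of `E` and `r`
  numbers, and the homologically trivial self-correspondences of `A × Z` are nilpotent (for instance
  `Z` is dominated by a product of curves).

**Theorem** (a). Suppose that

(1) `Neat`: if a power of a product of roots `z 1 ⋯ z n` of the `f i` is a power of `q` then two of
    them, `z k` and `z l`, `k ≠ l`, have the product `q` (the angle rank is maximal);
(2) `ConjugateOver E`: each root `z` is conjugate to `q / z` over `E`;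
(3) `ManyConjugates r`: each nonzero odd function (`w (q / z) = -w z`) on the set of the roots has more
    than `r` linearly independent conjugates (there is no condition for `r = 0`).

Then, for all these `A` and `Z`, the groups `H^3_nr(A × Z, ℚ/ℤ(2))` and `H^3_nr(Z, ℚ/ℤ(2))` agree up to
groups of finite exponent, and **one of them is finite if and only if the other is**
(`UnramifiedForRankOver`). For `r = 0` and `E = ℚ` the conditions on `Z` are that the eigenvalues of
Frobenius are, up to powers, rational numbers, and for `Z` a point one obtains the finiteness of
`H^3_nr(A, ℚ/ℤ(2))`, where Tate's conjecture is known for `A` by (1).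

(b) The conditions hold if the `f i` are irreducible over `ℚ`, not supersingular, with pairwise
different splitting fields, none of which is contained in the field `E`, which is normal over `ℚ`;
`r < g i`, where `2 g i` is the degree of `f i`; and for each `i` either `g i` is an odd prime number
and the fields generated by the roots of `f i` contain no imaginary quadratic field, or the Galois
representation of the odd functions on the roots of `f i` is irreducible. **So for all simple, not
supersingular abelian varieties** `A` **of odd prime dimension whose endomorphism fields have degree
`2 dim A` and contain no imaginary quadratic field, and all** `Z` **as above, with a normal field `E` that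
does not contain the splitting field,** `H^3_nr(A ^ m × Z, ℚ/ℤ(2))` **is finite for all `m` if and only if**
`H^3_nr(Z, ℚ/ℤ(2))` **is**; in particular it is finite if `dim Z ≤ 2` or `Z` is a threefold of abelian
type.

See the file `ProductsTateFactor` for `CycleCohomology` and `HasSequence`, and the results
`AngleRelations` and `PrimeDimensions` for the problem `MP_de89cc_ag` for the criterion.
-/

set_option autoImplicit false

namespace Pool.Agent.Results.MP_859dd5_ag.AngleRelations

open Polynomial Pool.Agent.W521.Descent Pool.Agent.T2h14.NR.Stm Pool.Agent.T2h14.UC

/-- `weilPolys q g` is the set of monic integral polynomials of degree `2 g` with constant term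
`q ^ g` and all roots of absolute value `√q`. -/
theorem result {I : Type} [Fintype I] (q : ℕ) (hq : 1 < q) (g : I → ℕ) (f : I → ℤ[X])
    (hf : ∀ i, f i ∈ weilPolys q (g i)) (E : IntermediateField ℚ ℂ) (r : ℕ) :
    (Neat q f ∧ ConjugateOver E q f ∧ ManyConjugates q r f → UnramifiedForRankOver E q r f) ∧
    (Normal ℚ E → (∀ i, Irreducible ((f i).map (Int.castRingHom ℚ))) →
      (∀ i, NotSupersingular q (f i)) →
      (∀ i, ((g i).Prime ∧ g i ≠ 2 ∧ NoImaginaryQuadratic (f i)) ∨ IrreducibleOdd q (f i)) →
      (∀ i j, i ≠ j → splitField (f i) ≠ splitField (f j)) → (∀ i, ¬ splitField (f i) ≤ E) →
      (∀ i, r < g i) → UnramifiedForRankOver E q r f) := by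
  obtain ⟨h1, -, -⟩ := Pool.Agent.T2h14.NR.stm_iff hq hf E r
  refine ⟨fun h => unramified_of (fun i => (hf i).1) E hq r (h1 h), ?_⟩
  intro hE hirr hss hodd hsplit hE' hr
  exact unramified_of (fun i => (hf i).1) E hq r
    (Pool.Agent.T2h14.NR.stm_family q hq g f hf hirr hss hodd hsplit E hE' r hr)

end Pool.Agent.Results.MP_859dd5_ag.AngleRelations
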