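import Mathlib
import Pool.Agent.T2h14.UC.Main

/-!
# Unramified cohomology of products with K3 surfaces and other varieties with simple Frobenius

Let `X i` be smooth projective varieties over the finite field with `Q` elements whose Frobenius
endomorphism is simple in the middle degree (`IsSimple`): the cohomology is spanned by classes of
algebraic cycles and by eigenvectors of Frobenius in `H^(dim X i)(X i)` with eigenvalues in a set `S i`
(the transcendental eigenvalues), which are not powers of `Q`, and each of which has multiplicity one.
For example K3 surfaces (with simple eigenvalues on the transcendental part), surfaces with `p_g = 0`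
and `q = 0`, where `S i` is empty, hypersurfaces and complete intersections, curves with simple
eigenvalues. Let `W` be **any product** of the varieties `X i` (with arbitrary multiplicities), and let
`Z` be **any** smooth projective variety, such that the homologically trivial self-correspondences of
`W × Z` are nilpotent; this is known if the motives of `W` and `Z` are finite-dimensional in the sense
of Kimura and O'Sullivan, for instance if they are dominated by products of curves (Kummer surfaces,
Fermat hypersurfaces).

**Theorem.** Suppose that in the degrees `2 e ≤ 2 c` there are no exceptional relations
(`NoRelations`): each relation `α 1 ⋯ α n β = Q ^ e`, `n > 0`, between eigenvalues `α k ∈ S (i k)` and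
an eigenvalue `β` on `H^j(Z)`, `∑ dim X (i k) + j = 2 e`, contains a pair `α k α l = Q ^ dim X i` from
the same `X i`. Then the unramified cohomology groups in weight `c` of `W × Z` and of `Z` agree up to
groups of finite exponent; and for `c = 2` the group `H^3_nr(W × Z, ℚ/ℤ(2))` **of the question is
finite if and only if** `H^3_nr(Z, ℚ/ℤ(2))` **is finite** (`UnramifiedReduces`).

The condition concerns only relations with few factors:

* There is no condition if `dim X i > 2 c` for all `i` (dimension at least five for the question).
* If the `X i` are surfaces and `c = 2`, it is enough that different `X i` have no common
  transcendental eigenvalues, and that the transcendental eigenvalues of the `X i` do not occur in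
  `H^2(Z)` (`NoCommonEigenvalues`). So for all products `W` of arbitrarily many such surfaces, for
  instance `W = X ^ m` for a K3 surface `X`, and all curves or varieties `Z` with `H^2(Z)` without
  these eigenvalues, the finiteness of `H^3_nr` for `W × Z` and for `Z` are equivalent. For `Z` a curve
  or a surface, or a threefold of abelian type, the group `H^3_nr(Z, ℚ/ℤ(2))` is finite.

See the file `ProductsTateFactor` for the structures `CycleCohomology` and `HasSequence`. In contrast to
that theorem nothing is assumed here about the cycles on `W`: the Tate classes on `W × Z` in question are
generated by graphs of Frobenius, cycles on the `X i` and classes on `Z`.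

The proof. The cohomology of `W` has a basis of products `a v 1 ⋯ v n`, where `a` is a class of cycles of
codimension `m` and the `v k` are pull-backs of eigenvectors from different factors, and
`m + ∑ dim X (i k) ≤ dim W`. By this inequality the relations between the eigenvalues of Frobenius that
are relevant for the cycles of codimension `≤ c` on `W × Z`, and for the dual cycles of dimension `≤ c`
on `W`, all have total degree at most `2 c`. By `NoRelations` the `v k` can be grouped in pairs, and
because the eigenvalues are simple the exterior product of the two members of a pair is a combination
of the graphs of the powers of Frobenius on `X i × X i`. The rest is as in `ProductsTateFactor`.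
-/

set_option autoImplicit false

namespace Pool.Agent.Results.MP_859dd5_ag.LowDegreeRelations

open Pool.Agent.H914 Pool.Agent.H914.VarClass Pool.Agent.W492.BB Pool.Agent.T2h14.UC

/-- The unramified cohomology of `W × Z` and of `Z`, for products `W` of varieties `X i` with simple
Frobenius, if there are no exceptional relations in the degrees at most `2 c`; this holds if the
dimensions of the `X i` are larger than `2 c`, and for surfaces and `c = 2` if different `X i` have
no common transcendental eigenvalues and these do not occur in `H^2(Z)`. -/
theorem result (k : Type) [Field k] (𝒱 : VarClass k) (C : TheoryData.{0, 0, 0} 𝒱 ℚ) [IsChow C]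
    (K : Type) [Field K] [IsAlgClosed K] [CharZero K] (H : WeilTheoryData.{0, 0, 0} C K) [IsWeil H]
    {I : Type} (X : I → 𝒱.Obj) (π : ∀ i, X i ⟶ X i) (S : I → Set K) (W Z : 𝒱.Obj) (πW : W ⟶ W)
    (πZ : Z ⟶ Z) (Q : ℕ) (h : Simple.IsSituation H X π S πW πZ Q) :
    (∀ c : ℕ, Simple.NoRelations H X S πZ Q c → ∀ U : CycleCohomology C, U.IsTheory c →
      U.FrobeniusActs (prodMap πW πZ) Q → UnramifiedReduces U c W Z) ∧
    (∀ c : ℕ, (∀ i, 2 * c < (X i).dim) → Simple.NoRelations H X S πZ Q c) ∧
    ((∀ i, (X i).dim = 2) → Simple.NoCommonEigenvalues H S πZ Q →
      Simple.NoRelations H X S πZ Q 2) :=
  ⟨fun _ hno _ hU hF => Simple.main h hno hU hF, fun _ hd => Simple.noRelations_of_dim hd,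
    fun hd hc => Simple.noRelations_of_surfaces h hd hc⟩

end Pool.Agent.Results.MP_859dd5_ag.LowDegreeRelations
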