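import Mathlib
import Pool.Agent.T2h14.UC.Main

/-!
# Finiteness of unramified cohomology for products

Let `W` and `Z` be smooth projective varieties over the finite field with `Q` elements. We compare the
unramified cohomology of `W × Z` and of `Z`, under the following conditions (`IsSituation`, with
`c = 2` for the group `H^3_nr(-, ℚ/ℤ(2))` of the question):

* Frobenius is semisimple on the cohomology of `W`, and Tate's conjecture holds for `W` in
  codimensions at most `c` (by the hard Lefschetz theorem it then holds in codimensions at least
  `dim W - c`);
* (`NoExchange`) for `i + j = 2 c`, no eigenvalue `α` of Frobenius on `H^i(W)`, except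
  `α = Q ^ (i / 2)`, and no eigenvalue `β` on `H^j(Z)` have the product `Q ^ c`;
* the homologically trivial self-correspondences of `W × Z` of degree zero are nilpotent, for
  instance the motives of `W` and `Z` are finite-dimensional in the sense of Kimura and O'Sullivan,
  which is known if they are dominated by products of curves.

**There are no conditions on cycles on `Z`.** For example: `W` is a Fermat hypersurface of dimension at
least five, or any smooth hypersurface of this dimension with semisimple Frobenius (and `Z` is
arbitrary; the first two conditions are automatic, since `H^i(W)` is generated by the hyperplane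
section for `i ≤ 4`); or `W` is an abelian variety which satisfies Tate's conjecture in codimension
two, or a product of K3 surfaces, and the eigenvalues of Frobenius on `H^i(W)` and `H^(4-i)(Z)`,
`0 < i < 4`, are not related.

**Theorem.** There is an integer `N > 0` such that `N x` belongs to the image of the pull-back
`H^3_nr(Z, ℚ/ℤ(2)) → H^3_nr(W × Z, ℚ/ℤ(2))` for all `x`, and `N` kills the kernel of this map; and
`H^3_nr(W × Z, ℚ/ℤ(2))` **is finite if and only if** `H^3_nr(Z, ℚ/ℤ(2))` **is finite.** The same holds
for all unramified cohomology groups `H^n_nr(-, ℚ_ℓ/ℤ_ℓ(c))`, as far as the first assertion is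
concerned, with the conditions in degree `2 c`.

In particular `H^3_nr(W × Z, ℚ/ℤ(2))` is finite if `Z` has dimension at most two, or is a threefold
of abelian type, where `H^3_nr(Z, ℚ/ℤ(2))` is known to be finite (Colliot-Thélène, Sansuc and Soulé,
Kato; Soulé, Colliot-Thélène and Kahn). For `Z` of larger dimension Tate's conjecture in codimension
two is not known for `Z`, and is not used.

The structure `CycleCohomology` collects the formal properties which are used: the groups
`M^i(X) = H^(i - c)(X, ℋ^(n + i - c)(ℚ_ℓ/ℤ_ℓ(i)))`, cohomology groups of the Gersten complexes (cycle
modules of Rost), on which Chow correspondences with integral coefficients act; the Frobenius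
endomorphism acts on `M^i(X)` as multiplication by `Q ^ i`; `M^c(X)` is the unramified cohomology.
`HasSequence` is the exact sequence
`H^3(X, ℚ/ℤ(2)) → H^3_nr(X, ℚ/ℤ(2)) → CH^2(X) ⊗ ℚ/ℤ → H^4(X, ℚ/ℤ(2))` of Bloch and Ogus, whose first
group is finite by the theorem of Deligne; it is only used for the finiteness.

The proof. The tensor product of `ℚ` with the group of all sequences in an abelian group `M` vanishes
if and only if `M` has finite exponent, and Chow correspondences with **rational** coefficients act on
these vector spaces. A polynomial in the Frobenius correspondence of `W × Z` is an endomorphism of the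
motive which is the identity on the classes in `H^(2 c)(W × Z)` on which Frobenius acts as `Q ^ c`
and zero on the other parts of the cohomology; by the hypotheses these classes are sums of products of
algebraic classes `D j` of codimension at most `c` on `W` and classes on `Z`. Because of nilpotence the
corresponding part of the motive is the sum of the twists by `deg (D j)` of the same part of the motive
of `Z` (the method of Soulé, Geisser and Kahn). The groups `M^(c - deg (D j))(Z)` vanish except for
`deg (D j) = 0`: unramified cohomology does not see the twisted parts. So `M^c(W × Z)` and `M^c(Z)`
agree up to groups of finite exponent. Finally a group with the exact sequence above and of finite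
exponent is finite (`finite_of_bounded`).
-/

set_option autoImplicit false

namespace Pool.Agent.Results.MP_859dd5_ag.ProductsTateFactor

open Pool.Agent.H914 Pool.Agent.H914.VarClass Pool.Agent.W492.BB Pool.Agent.T2h14.UC

/-- The unramified cohomology of `W × Z` and of `Z`, where `W` satisfies Tate's conjecture in small
codimensions and the Frobenius eigenvalues of `W` and `Z` are not related, and nothing is assumed about
the cycles on `Z`. -/
theorem result (k : Type) [Field k] (𝒱 : VarClass k) (C : TheoryData.{0, 0, 0} 𝒱 ℚ) [IsChow C]
    (K : Type) [Field K] [IsAlgClosed K] [CharZero K] (H : WeilTheoryData.{0, 0, 0} C K) [IsWeil H]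
    (W Z : 𝒱.Obj) (πW : W ⟶ W) (πZ : Z ⟶ Z) (Q c : ℕ) (h : IsSituation H πW πZ Q c)
    (U : CycleCohomology C) (hU : U.IsTheory c) (hF : U.FrobeniusActs (prodMap πW πZ) Q) :
    UnramifiedReduces U c W Z :=
  general h hU hF

end Pool.Agent.Results.MP_859dd5_ag.ProductsTateFactor
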